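import Mathlib

set_option autoImplicit false

/-!
# The min-max formula for weighted linear extensions of series-parallel posets fails fractionally

On one series-parallel poset with ten elements, bipartite covering graph and no 1-edge series cut
there is a 0/1 weighting `c` such that, for every `t`, the maximal weight of a linear extension
for `t • c` is exactly `3 t`, while the minimal cardinality of a covering family of series cuts
and paralleled bifans is exactly `⌈7 t / 2⌉`; the minimal total weight of a fractional covering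
is exactly `7 / 2` (times `t`). So the gap is unbounded on one fixed poset, and the formula fails
also when fractional coverings are allowed.
-/

namespace Pool.Agent.Results.MP_4a5947_co.FractionalGap

open Classical

/-- No induced `N`: the finite posets with this property are the series-parallel ones. -/
def NFree (α : Type) [PartialOrder α] : Prop :=
  ¬ ∃ a b c d : α, a < b ∧ c < b ∧ c < d ∧ ¬ a ≤ c ∧ ¬ c ≤ a ∧
    ¬ a ≤ d ∧ ¬ d ≤ a ∧ ¬ b ≤ d ∧ ¬ d ≤ b

/-- The covering graph is bipartite. -/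
def BipartiteCover (α : Type) [PartialOrder α] : Prop :=
  ∃ col : α → Bool, ∀ x y : α, x ⋖ y → col x ≠ col y

/-- The series cut of the edge `x ⋖ y` in an `N`-free poset: the edges from a lower cover of `y`
to an upper cover of `x`. -/
def cut {α : Type} [PartialOrder α] (x y : α) : Set (α × α) :=
  {p | p.1 ⋖ p.2 ∧ p.1 ⋖ y ∧ x ⋖ p.2}

/-- The set of edges incident with `v`. -/
def bifan {α : Type} [PartialOrder α] (v : α) : Set (α × α) :=
  {p | p.1 ⋖ p.2 ∧ (p.1 = v ∨ p.2 = v)}

/-- The bifan at `v` is paralleled. -/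
def Paralleled {α : Type} [PartialOrder α] (v : α) : Prop :=
  ∃ u w z : α, u ⋖ v ∧ v ⋖ w ∧ z ≠ v ∧ (u ⋖ z ∨ z ⋖ u) ∧ (w ⋖ z ∨ z ⋖ w)

/-- No series cut consists of one edge only. -/
def NoOneEdgeCut (α : Type) [PartialOrder α] : Prop :=
  ∀ x y : α, x ⋖ y → ∃ p ∈ cut x y, p ≠ (x, y)

/-- The members of the covering families: series cuts and paralleled bifans. -/
def Member {α : Type} [PartialOrder α] (A : Set (α × α)) : Prop :=
  (∃ x y : α, x ⋖ y ∧ A = cut x y) ∨ (∃ v : α, Paralleled v ∧ A = bifan v)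

/-- `L` is a linear extension. -/
def IsLinExt {α : Type} [Fintype α] [PartialOrder α] (L : α ≃ Fin (Fintype.card α)) : Prop :=
  ∀ x y : α, x < y → L x < L y

/-- The weight of a linear extension: the sum of `c` over the edges `x ⋖ y` with `y` immediately
after `x`. -/
noncomputable def weight {α : Type} [Fintype α] [PartialOrder α] (c : α → α → ℕ)
    (L : α ≃ Fin (Fintype.card α)) : ℕ :=
  ∑ p ∈ Finset.univ.filter (fun p : α × α => p.1 ⋖ p.2 ∧ (L p.2 : ℕ) = (L p.1 : ℕ) + 1),
    c p.1 p.2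

/-- `F` is a covering family for the weighting `c`. -/
def Covers {α : Type} [PartialOrder α] (c : α → α → ℕ) {m : ℕ} (F : Fin m → Set (α × α)) : Prop :=
  (∀ i, Member (F i)) ∧
    ∀ x y : α, x ⋖ y → c x y ≤ (Finset.univ.filter (fun i : Fin m => (x, y) ∈ F i)).card

/-- `F` with the weights `w` is a fractional covering for the weighting `c`. -/
def FracCovers {α : Type} [PartialOrder α] (c : α → α → ℝ) {m : ℕ} (F : Fin m → Set (α × α))
    (w : Fin m → ℝ) : Prop :=
  (∀ i, Member (F i)) ∧ (∀ i, 0 ≤ w i) ∧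
    ∀ x y : α, x ⋖ y → c x y ≤ ∑ i ∈ Finset.univ.filter (fun i : Fin m => (x, y) ∈ F i), w i

/-- The ten-element poset `u ⊕ (((a₁∥a₁') ⊕ (a₂∥a₂')) ∥ ((b₁∥b₁') ⊕ (b₂∥b₂'))) ⊕ w`:
`0 = u`, `1,2 = a₁,a₁'`, `3,4 = a₂,a₂'`, `5,6 = b₁,b₁'`, `7,8 = b₂,b₂'`, `9 = w`. -/
def P : Type := Fin 10

instance : Fintype P := inferInstanceAs (Fintype (Fin 10))
instance instDec : DecidableEq P := inferInstanceAs (DecidableEq (Fin 10))

def lv (x : Fin 10) : ℕ :=
  if x.val = 0 then 0 else if x.val = 9 then 3 else if (x.val - 1) % 4 < 2 then 1 else 2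

def ltb (x y : Fin 10) : Bool :=
  decide (lv x < lv y) && (x.val == 0 || y.val == 9 || (x.val - 1) / 4 == (y.val - 1) / 4)

def covb (x y : Fin 10) : Bool := ltb x y && decide (lv y = lv x + 1)

instance : PartialOrder P where
  le x y := x = y ∨ ltb x y = true
  lt x y := ltb x y = true
  le_refl x := Or.inl rfl
  le_trans := by
    show ∀ a b c : Fin 10, (a = b ∨ ltb a b = true) → (b = c ∨ ltb b c = true) →
      (a = c ∨ ltb a c = true)
    decide +kernel
  lt_iff_le_not_ge := by
    show ∀ a b : Fin 10, ltb a b = true ↔ ((a = b ∨ ltb a b = true) ∧ ¬ (b = a ∨ ltb b a = true))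
    decide +kernel
  le_antisymm := by
    show ∀ a b : Fin 10, (a = b ∨ ltb a b = true) → (b = a ∨ ltb b a = true) → a = b
    decide +kernel

theorem cov_iff (x y : P) : x ⋖ y ↔ covb x y = true := by
  revert x y
  show ∀ x y : Fin 10, (ltb x y = true ∧ ∀ c : Fin 10, ltb x c = true → ¬ ltb c y = true) ↔
    covb x y = true
  decide +kernel

def e (i : Fin 10) : P := i

/-- The seven weighted edges; they form an induced 7-cycle of the conflict relation. -/
def S : Finset (P × P) :=
  {(e 0, e 1), (e 1, e 4), (e 2, e 3), (e 3, e 9), (e 7, e 9), (e 5, e 7), (e 0, e 5)}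

theorem S_cov : ∀ p ∈ S, covb p.1 p.2 = true := by decide +kernel

theorem S_card : S.card = 7 := by decide +kernel

theorem cut_le : ∀ x y : P,
    (S.filter (fun p => covb p.1 y = true ∧ covb x p.2 = true)).card ≤ 2 := by
  show ∀ x y : Fin 10, (S.filter (fun p => covb p.1 y = true ∧ covb x p.2 = true)).card ≤ 2
  decide +kernel

theorem fan_le : ∀ v : P, (S.filter (fun p => p.1 = v ∨ p.2 = v)).card ≤ 2 := by
  show ∀ v : Fin 10, (S.filter (fun p => p.1 = e v ∨ p.2 = e v)).card ≤ 2
  decide +kernel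

theorem ext_le (f : P → ℕ) (hi : Function.Injective f) (hm : ∀ x y : P, x < y → f x < f y) :
    (∑ p ∈ S, if f p.2 = f p.1 + 1 then 1 else 0) ≤ 3 := by
  have ne : ∀ i j : Fin 10, i ≠ j → f (e i) ≠ f (e j) := fun i j h h' => h (hi h')
  have lt : ∀ i j : Fin 10, ltb i j = true → f (e i) < f (e j) := fun i j h => hm _ _ h
  have n12 := ne 1 2 (by decide)
  have n34 := ne 3 4 (by decide)
  have n37 := ne 3 7 (by decide)
  have n78 := ne 7 8 (by decide)
  have n56 := ne 5 6 (by decide)
  have n15 := ne 1 5 (by decide)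
  have l02 := lt 0 2 (by decide)
  have l24 := lt 2 4 (by decide)
  have l13 := lt 1 3 (by decide)
  have l49 := lt 4 9 (by decide)
  have l58 := lt 5 8 (by decide)
  have l89 := lt 8 9 (by decide)
  have l06 := lt 0 6 (by decide)
  have l67 := lt 6 7 (by decide)
  unfold S
  rw [Finset.sum_insert (by decide), Finset.sum_insert (by decide), Finset.sum_insert (by decide),
    Finset.sum_insert (by decide), Finset.sum_insert (by decide), Finset.sum_insert (by decide),
    Finset.sum_singleton]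
  dsimp only
  split_ifs <;> omega

/-- The 0/1 weighting. -/
def c0 (x y : P) : ℕ := if (x, y) ∈ S then 1 else 0

theorem c0_mem {p : P × P} (hp : p ∈ S) : c0 p.1 p.2 = 1 := by simp [c0, hp]

theorem c0_not {p : P × P} (hp : p ∉ S) : c0 p.1 p.2 = 0 := by simp [c0, hp]

/-- The seven members covering the seven weighted edges cyclically. -/
def G (j : Fin 7) : Set (P × P) :=
  match j with
  | 0 => bifan (e 1)
  | 1 => cut (e 1) (e 4)
  | 2 => bifan (e 3)
  | 3 => cut (e 3) (e 9)
  | 4 => bifan (e 7)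
  | 5 => bifan (e 5)
  | 6 => cut (e 0) (e 5)

theorem mem_bifan (v x y : P) :
    (x, y) ∈ bifan v ↔ (covb x y && (decide (x = v) || decide (y = v))) = true := by
  simp only [bifan, Set.mem_ofPred_eq, cov_iff, Bool.and_eq_true, Bool.or_eq_true, decide_eq_true_eq]

theorem mem_cut (a b x y : P) :
    (x, y) ∈ cut a b ↔ (covb x y && (covb x b && covb a y)) = true := by
  simp only [cut, Set.mem_ofPred_eq, cov_iff, Bool.and_eq_true]

/-- Membership in the members `G j`, as a Boolean. -/
def inG (j : Fin 7) (x y : P) : Bool :=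
  match j with
  | 0 => covb x y && (decide (x = e 1) || decide (y = e 1))
  | 1 => covb x y && (covb x (e 4) && covb (e 1) y)
  | 2 => covb x y && (decide (x = e 3) || decide (y = e 3))
  | 3 => covb x y && (covb x (e 9) && covb (e 3) y)
  | 4 => covb x y && (decide (x = e 7) || decide (y = e 7))
  | 5 => covb x y && (decide (x = e 5) || decide (y = e 5))
  | 6 => covb x y && (covb x (e 5) && covb (e 0) y)

theorem inG_iff (j : Fin 7) (x y : P) : (x, y) ∈ G j ↔ inG j x y = true := by
  fin_cases j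
  · exact mem_bifan _ _ _
  · exact mem_cut _ _ _ _
  · exact mem_bifan _ _ _
  · exact mem_cut _ _ _ _
  · exact mem_bifan _ _ _
  · exact mem_bifan _ _ _
  · exact mem_cut _ _ _ _

theorem G_member (j : Fin 7) : Member (G j) := by
  have hb : ∀ v : Fin 10, (∃ u w z : Fin 10, covb u v = true ∧ covb v w = true ∧ z ≠ v ∧
      (covb u z = true ∨ covb z u = true) ∧ (covb w z = true ∨ covb z w = true)) →
      Member (bifan (e v)) := by
    intro v hv
    obtain ⟨u, w, z, h1, h2, h3, h4, h5⟩ := hv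
    refine Or.inr ⟨e v, ⟨e u, e w, e z, ?_⟩, rfl⟩
    simp only [cov_iff]
    exact ⟨h1, h2, h3, h4, h5⟩
  have hc : ∀ x y : Fin 10, covb x y = true → Member (cut (e x) (e y)) := by
    intro x y h
    exact Or.inl ⟨e x, e y, (cov_iff _ _).2 h, rfl⟩
  fin_cases j
  · exact hb 1 (by decide +kernel)
  · exact hc 1 4 (by decide +kernel)
  · exact hb 3 (by decide +kernel)
  · exact hc 3 9 (by decide +kernel)
  · exact hb 7 (by decide +kernel)
  · exact hb 5 (by decide +kernel)
  · exact hc 0 5 (by decide +kernel)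

/-- Every weighted edge lies in two of the seven members. -/
theorem G_two : ∀ p ∈ S, (∑ j : Fin 7, if inG j p.1 p.2 = true then 1 else 0) = 2 := by
  decide +kernel

/-- Every weighted edge lies in one of the members `0, 2, 4, 6`. -/
theorem G_four : ∀ p ∈ S, 1 ≤ ∑ j : Fin 4, if inG (![0, 2, 4, 6] j) p.1 p.2 = true then 1 else 0 := by
  decide +kernel

theorem member_le {A : Set (P × P)} (hA : Member A) : (S.filter (fun p => p ∈ A)).card ≤ 2 := by
  rcases hA with ⟨x, y, -, rfl⟩ | ⟨v, -, rfl⟩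
  · refine le_trans (Finset.card_le_card ?_) (cut_le x y)
    intro p hp
    rw [Finset.mem_filter] at hp ⊢
    exact ⟨hp.1, (cov_iff _ _).1 hp.2.2.1, (cov_iff _ _).1 hp.2.2.2⟩
  · refine le_trans (Finset.card_le_card ?_) (fan_le v)
    intro p hp
    rw [Finset.mem_filter] at hp ⊢
    exact ⟨hp.1, hp.2.2⟩

theorem card_P : Fintype.card P = 10 := rfl

/-- The linear extension `0,1,2,3,4,5,6,8,7,9`. -/
def L0 : P ≃ Fin (Fintype.card P) := (Equiv.swap (7 : Fin 10) 8 : Fin 10 ≃ Fin 10)

theorem L0_ext : IsLinExt L0 := by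
  show ∀ x y : Fin 10, ltb x y = true → (Equiv.swap (7 : Fin 10) 8) x < (Equiv.swap (7 : Fin 10) 8) y
  decide +kernel

theorem weight_eq (t : ℕ) (L : P ≃ Fin (Fintype.card P)) :
    weight (fun x y => t * c0 x y) L =
      t * ∑ p ∈ S, if p.1 ⋖ p.2 ∧ (L p.2 : ℕ) = (L p.1 : ℕ) + 1 then 1 else 0 := by
  unfold weight
  rw [Finset.sum_filter, ← Finset.sum_subset (Finset.subset_univ S) (by
      intro p _ hp
      dsimp only
      rw [c0_not hp]
      simp), Finset.mul_sum]
  refine Finset.sum_congr rfl ?_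
  intro p hp
  dsimp only
  rw [c0_mem hp]
  split_ifs <;> simp

theorem weight_le (t : ℕ) (L : P ≃ Fin (Fintype.card P)) (hL : IsLinExt L) :
    weight (fun x y => t * c0 x y) L ≤ 3 * t := by
  rw [weight_eq, mul_comm]
  refine Nat.mul_le_mul_right t (le_trans ?_ (ext_le (fun x => (L x : ℕ))
      (fun a b hab => L.injective (Fin.ext hab)) (fun x y hxy => hL x y hxy)))
  refine Finset.sum_le_sum ?_
  intro p _
  by_cases h : (L p.2 : ℕ) = (L p.1 : ℕ) + 1
  · simp only [h, and_true, if_true]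
    split_ifs <;> omega
  · simp [h]

theorem weight_L0 (t : ℕ) : weight (fun x y => t * c0 x y) L0 = 3 * t := by
  rw [weight_eq, mul_comm]
  congr 1
  have h : ∀ p : P × P, (p.1 ⋖ p.2 ∧ (L0 p.2 : ℕ) = (L0 p.1 : ℕ) + 1) ↔
      (covb p.1 p.2 && decide ((L0 p.2 : ℕ) = (L0 p.1 : ℕ) + 1)) = true := by
    intro p
    rw [cov_iff, Bool.and_eq_true, decide_eq_true_eq]
  simp only [h]
  decide +kernel

theorem cover_ge (t m : ℕ) (F : Fin m → Set (P × P)) (h : Covers (fun x y => t * c0 x y) F) :
    (7 * t + 1) / 2 ≤ m := by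
  obtain ⟨h1, h2⟩ := h
  have h7 : ∑ p ∈ S, t ≤ ∑ p ∈ S, (Finset.univ.filter (fun i : Fin m => p ∈ F i)).card := by
    refine Finset.sum_le_sum ?_
    intro p hp
    have := h2 p.1 p.2 ((cov_iff _ _).2 (S_cov p hp))
    simpa [c0_mem hp] using this
  have hswap : ∑ p ∈ S, (Finset.univ.filter (fun i : Fin m => p ∈ F i)).card =
      ∑ i : Fin m, (S.filter (fun p => p ∈ F i)).card := by
    simp only [Finset.card_filter]
    exact Finset.sum_comm
  have hle : ∑ i : Fin m, (S.filter (fun p => p ∈ F i)).card ≤ ∑ _i : Fin m, 2 :=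
    Finset.sum_le_sum (fun i _ => member_le (h1 i))
  simp only [Finset.sum_const, Finset.card_univ, Fintype.card_fin, smul_eq_mul, S_card] at hle h7
  omega

theorem frac_ge (m : ℕ) (F : Fin m → Set (P × P)) (w : Fin m → ℝ)
    (h : FracCovers (fun x y => (c0 x y : ℝ)) F w) : 7 / 2 ≤ ∑ i, w i := by
  obtain ⟨h1, h0, h2⟩ := h
  have h7 : ∑ p ∈ S, (1 : ℝ) ≤ ∑ p ∈ S, ∑ i ∈ Finset.univ.filter (fun i : Fin m => p ∈ F i), w i := by
    refine Finset.sum_le_sum ?_
    intro p hp
    have := h2 p.1 p.2 ((cov_iff _ _).2 (S_cov p hp))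
    simpa [c0_mem hp] using this
  have hswap : ∑ p ∈ S, ∑ i ∈ Finset.univ.filter (fun i : Fin m => p ∈ F i), w i =
      ∑ i : Fin m, w i * (S.filter (fun p => p ∈ F i)).card := by
    simp only [Finset.sum_filter]
    rw [Finset.sum_comm]
    refine Finset.sum_congr rfl ?_
    intro i _
    rw [← Finset.sum_filter, Finset.sum_const, nsmul_eq_mul, mul_comm]
  have hle : ∑ i : Fin m, w i * (S.filter (fun p => p ∈ F i)).card ≤ ∑ i : Fin m, w i * 2 := by
    refine Finset.sum_le_sum ?_
    intro i _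
    refine mul_le_mul_of_nonneg_left ?_ (h0 i)
    exact_mod_cast member_le (h1 i)
  rw [← Finset.sum_mul] at hle
  rw [hswap] at h7
  simp only [Finset.sum_const, S_card, nsmul_eq_mul] at h7
  norm_num at h7
  linarith

theorem frac_G : FracCovers (fun x y => (c0 x y : ℝ)) G (fun _ => (1 / 2 : ℝ)) := by
  refine ⟨G_member, fun i => by norm_num, ?_⟩
  intro x y _
  by_cases hp : (x, y) ∈ S
  · have h := G_two (x, y) hp
    rw [Finset.sum_const, nsmul_eq_mul, Finset.card_filter]
    simp only [inG_iff]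
    dsimp only at h
    rw [h, c0_mem (p := (x, y)) hp]
    norm_num
  · have h0 : c0 x y = 0 := c0_not (p := (x, y)) hp
    dsimp only
    rw [h0]
    simp only [Nat.cast_zero]
    exact Finset.sum_nonneg (fun i _ => by norm_num)

theorem cover_exists (t : ℕ) : ∃ F : Fin ((7 * t + 1) / 2) → Set (P × P),
    Covers (fun x y => t * c0 x y) F := by
  obtain ⟨s, r, hr, ht⟩ : ∃ s r : ℕ, r < 2 ∧ t = 2 * s + r := ⟨t / 2, t % 2, by omega, by omega⟩
  have hcard : Fintype.card ((Fin 7 × Fin s) ⊕ (Fin 4 × Fin r)) = (7 * t + 1) / 2 := by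
    simp only [Fintype.card_sum, Fintype.card_prod, Fintype.card_fin]
    omega
  let φ : Fin ((7 * t + 1) / 2) ≃ ((Fin 7 × Fin s) ⊕ (Fin 4 × Fin r)) :=
    (Fintype.equivFinOfCardEq hcard).symm
  let H : ((Fin 7 × Fin s) ⊕ (Fin 4 × Fin r)) → Fin 7 := fun a =>
    Sum.elim (fun q => q.1) (fun q => ![0, 2, 4, 6] q.1) a
  refine ⟨fun i => G (H (φ i)), fun i => G_member _, ?_⟩
  intro x y _
  by_cases hp : (x, y) ∈ S
  · have h0 : c0 x y = 1 := c0_mem (p := (x, y)) hp
    dsimp only
    rw [h0, Finset.card_filter]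
    simp only [inG_iff]
    rw [Equiv.sum_comp φ (fun a => if inG (H a) x y = true then 1 else 0), Fintype.sum_sum_type,
      Fintype.sum_prod_type, Fintype.sum_prod_type]
    have h1 := G_two (x, y) hp
    have h2 := G_four (x, y) hp
    have e1 : ∑ j : Fin 7, ∑ _k : Fin s, (if inG (H (Sum.inl (j, _k))) x y = true then 1 else 0) =
        s * 2 := by
      rw [← h1, Finset.mul_sum]
      refine Finset.sum_congr rfl ?_
      intro j _
      by_cases hj : inG j x y = true <;> simp [H, hj]
    have e2 : r * 1 ≤ ∑ j : Fin 4, ∑ _k : Fin r,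
        (if inG (H (Sum.inr (j, _k))) x y = true then 1 else 0) := by
      refine le_trans (Nat.mul_le_mul_left r h2) (le_of_eq ?_)
      rw [Finset.mul_sum]
      refine Finset.sum_congr rfl ?_
      intro j _
      by_cases hj : inG (![0, 2, 4, 6] j) x y = true <;> simp [H, hj]
    rw [e1]
    omega
  · have h0 : c0 x y = 0 := c0_not (p := (x, y)) hp
    dsimp only
    rw [h0]
    simp

/-- There is a series-parallel poset with ten elements, bipartite covering graph and no 1-edge
series cut, with a 0/1 weighting `c`, such that for every `t` the weighting `t • c` has maximal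
weight `3 t` over the linear extensions, while the smallest covering family of series cuts and
paralleled bifans has `⌈7 t / 2⌉` members, and the smallest fractional covering of `c` has total
weight `7 / 2`. -/
theorem result : ∃ (α : Type) (_ : Fintype α) (_ : PartialOrder α) (c : α → α → ℕ),
    Fintype.card α = 10 ∧ NFree α ∧ BipartiteCover α ∧ NoOneEdgeCut α ∧ (∀ x y, c x y ≤ 1) ∧
    (∀ t : ℕ,
      IsGreatest {k : ℕ | ∃ L : α ≃ Fin (Fintype.card α), IsLinExt L ∧
        weight (fun x y => t * c x y) L = k} (3 * t) ∧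
      IsLeast {m : ℕ | ∃ F : Fin m → Set (α × α), Covers (fun x y => t * c x y) F}
        ((7 * t + 1) / 2)) ∧
    IsLeast {W : ℝ | ∃ (m : ℕ) (F : Fin m → Set (α × α)) (w : Fin m → ℝ),
      FracCovers (fun x y => (c x y : ℝ)) F w ∧ W = ∑ i, w i} (7 / 2) := by
  refine ⟨P, inferInstance, inferInstance, c0, card_P, ?_, ?_, ?_, ?_, ?_, ?_⟩
  · show ¬ ∃ a b c d : Fin 10, ltb a b = true ∧ ltb c b = true ∧ ltb c d = true ∧
        ¬ (a = c ∨ ltb a c = true) ∧ ¬ (c = a ∨ ltb c a = true) ∧
        ¬ (a = d ∨ ltb a d = true) ∧ ¬ (d = a ∨ ltb d a = true) ∧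
        ¬ (b = d ∨ ltb b d = true) ∧ ¬ (d = b ∨ ltb d b = true)
    decide +kernel
  · refine ⟨fun x => decide (lv x % 2 = 0), ?_⟩
    simp only [cov_iff]
    show ∀ x y : Fin 10, covb x y = true → decide (lv x % 2 = 0) ≠ decide (lv y % 2 = 0)
    decide +kernel
  · intro x y hxy
    have h : ∀ x y : Fin 10, covb x y = true → ∃ x' y' : Fin 10, covb x' y' = true ∧
        covb x' y = true ∧ covb x y' = true ∧ (x' ≠ x ∨ y' ≠ y) := by
      decide +kernel
    obtain ⟨x', y', h1, h2, h3, h4⟩ := h x y ((cov_iff _ _).1 hxy)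
    refine ⟨(x', y'), ⟨(cov_iff _ _).2 h1, (cov_iff _ _).2 h2, (cov_iff _ _).2 h3⟩, ?_⟩
    intro h5
    rcases h4 with h4 | h4
    · exact h4 (congrArg Prod.fst h5)
    · exact h4 (congrArg Prod.snd h5)
  · intro x y
    unfold c0
    split_ifs <;> omega
  · intro t
    refine ⟨⟨⟨L0, L0_ext, weight_L0 t⟩, ?_⟩, ⟨cover_exists t, ?_⟩⟩
    · rintro k ⟨L, hL, rfl⟩
      exact weight_le t L hL
    · rintro m ⟨F, hF⟩
      exact cover_ge t m F hF
  · refine ⟨⟨7, G, fun _ => 1 / 2, frac_G, ?_⟩, ?_⟩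
    · norm_num
    · rintro W ⟨m, F, w, h, rfl⟩
      exact frac_ge m F w h

end Pool.Agent.Results.MP_4a5947_co.FractionalGap
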